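import Pool.Agent.Results.MP_28b04d_gt.MeanOscillation

/-!
# MP_530380_gt, Q1: symplectomorphisms of `ℝ²ⁿ` with compact support which are smoothly isotopic to the
identity

Q1 asks whether every symplectomorphism `φ` of `ℝ²ⁿ` with compact support is isotopic to the identity
through diffeomorphisms with common compact support (they need not be symplectic).  The theorem gives
criteria in terms of averages of the differential `Dφ`, for all `n ≥ 1`.  `(Dφ)_B` is the average of `Dφ`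
over the ball `B`, and the mean oscillation over `B` is the average of `‖Dφ - (Dφ)_B‖`.

1. The average over `B` of `‖Dφ - (Dφ)_B‖ ‖Dφ‖` is less than one, for all balls `B`.
2. For some probability measure `μ` with bounded support and without atoms all the averages
  `∫ Dφ(x + r z) dμ(z)`, `r > 0`, are nonsingular.
3. `‖Dφ‖ ≤ M`, the mean oscillation is at most `θ` over all balls of radius at most `r₀`, where
  `M θ < 1`, and `|φ(x) - x| ≤ η` for all `x`, where `4 n M η < r₀ (1 - M θ)`.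
4. `‖Dφ‖ ≤ M` and `∫ ‖D²φ‖²ⁿ ≤ τ²ⁿ |B₁|`, where `0 ≤ τ`, `2²ⁿ⁺¹ τ M < 1`.

As `φ` is symplectic, `‖(Dφ)⁻¹‖ ≤ ‖Dφ‖`.
-/

set_option autoImplicit false

open MeasureTheory Metric Function Set
open scoped ContDiff RealInnerProductSpace

noncomputable section

namespace Pool.Agent.Results.MP_530380_gt.SmoothlyTrivial

open Pool.Agent.Results.MP_28b04d_gt.MeanOscillation (R IsDiffeo mean osc secondNorm unitVolume)

variable {n : ℕ}

/-- the standard symplectic form `∑ dx_i ∧ dy_i` on `ℝ²ⁿ`, where `x_i` are the first `n` coordinates and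
`y_i` are the last `n` coordinates -/
def om (v w : R (n + n)) : ℝ :=
  ∑ i : Fin n, (v (Fin.castAdd n i) * w (Fin.natAdd n i) - v (Fin.natAdd n i) * w (Fin.castAdd n i))

/-- `φ` is a symplectomorphism of `ℝ²ⁿ` with compact support -/
def IsSymp (φ : R (n + n) → R (n + n)) : Prop :=
  IsDiffeo φ ∧ ∀ x v w, om (fderiv ℝ φ x v) (fderiv ℝ φ x w) = om v w

/-- `φ` and the identity are joined by a smooth path of diffeomorphisms with common compact support -/
def IsTrivial (φ : R (n + n) → R (n + n)) : Prop :=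
  ∃ (F : ℝ × R (n + n) → R (n + n)) (ρ : ℝ), ContDiff ℝ ∞ F ∧ (∀ t x, ρ < ‖x‖ → F (t, x) = x) ∧
    (∀ t ∈ Icc (0 : ℝ) 1, IsDiffeo (fun x => F (t, x))) ∧ (∀ x, F (0, x) = x) ∧
    ∀ x, F (1, x) = φ x

/-- the average over `B` of `‖Dφ - (Dφ)_B‖ ‖Dφ‖` is less than one for all balls `B` -/
def WeightedOscillation (φ : R (n + n) → R (n + n)) : Prop :=
  ∀ (x : R (n + n)) (r : ℝ), 0 < r →
    ⨍ y in ball x r, ‖fderiv ℝ φ y - mean φ x r‖ * ‖fderiv ℝ φ y‖ < 1

/-- nonsingular averages along a measure without atoms -/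
def NonsingularAverages (φ : R (n + n) → R (n + n)) : Prop :=
  ∃ μ : Measure (R (n + n)), IsProbabilityMeasure μ ∧ (∃ S : ℝ, ∀ᵐ z ∂μ, ‖z‖ ≤ S) ∧
    (∀ z, μ {z} = 0) ∧ ∀ r : ℝ, 0 < r → ∀ x,
      Injective (∫ z, fderiv ℝ φ (x + r • z) ∂μ : R (n + n) →L[ℝ] R (n + n))

/-- small mean oscillation up to the scale `r₀` and small displacement -/
def SmallDisplacement (φ : R (n + n) → R (n + n)) : Prop :=
  ∃ M θ r₀ η : ℝ, 0 ≤ M ∧ M * θ < 1 ∧ 0 < r₀ ∧ 4 * n * M * η < r₀ * (1 - M * θ) ∧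
    (∀ x, ‖fderiv ℝ φ x‖ ≤ M) ∧ (∀ x r, 0 < r → r ≤ r₀ → osc φ x r ≤ θ) ∧ ∀ x, ‖φ x - x‖ ≤ η

/-- small energy -/
def SmallEnergy (φ : R (n + n) → R (n + n)) : Prop :=
  ∃ M τ : ℝ, 0 ≤ M ∧ 0 ≤ τ ∧ 2 ^ (2 * n + 1) * τ * M < 1 ∧ (∀ x, ‖fderiv ℝ φ x‖ ≤ M) ∧
    ∫ y, secondNorm φ y ^ (2 * n) ≤ τ ^ (2 * n) * unitVolume (n + n)

open Pool.Agent.Results.MP_28b04d_gt.MeanOscillation (toC ofC toCls energyC InverseBound Admissible)

theorem trivial_of {φ : R (n + n) → R (n + n)} (h : Run7.h7.Avg.IsotopicC φ (fun x => x)) :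
    IsTrivial φ := by
  obtain ⟨F, ρ, h1, h2, h3, h4, h5⟩ := h
  refine ⟨fun p => F (1 - p.1, p.2), ρ, h1.comp ((contDiff_const.sub contDiff_fst).prodMk
    contDiff_snd), fun t x hx => h2 _ x hx, fun t ht => ofC (h3 (1 - t) ⟨by linarith [ht.2],
      by linarith [ht.1]⟩), fun x => ?_, fun x => ?_⟩
  · show F (1 - 0, x) = x
    rw [sub_zero, h5]
  · show F (1 - 1, x) = φ x
    rw [sub_self, h4]

/-- the complex structure -/
def jay (v : R (n + n)) : R (n + n) :=
  WithLp.toLp 2 (Fin.append (fun i => -v (Fin.natAdd n i)) (fun i => v (Fin.castAdd n i)))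

theorem inner_jay (v w : R (n + n)) : ⟪jay v, w⟫ = om v w := by
  rw [PiLp.inner_apply, Fin.sum_univ_add]
  simp only [jay, Fin.append_left, Fin.append_right, om]
  rw [← Finset.sum_add_distrib]
  refine Finset.sum_congr rfl fun i _ => ?_
  simp only [RCLike.inner_apply, conj_trivial]
  ring

theorem norm_jay (v : R (n + n)) : ‖jay v‖ = ‖v‖ := by
  have h1 : ‖jay v‖ ^ 2 = ‖v‖ ^ 2 := by
    rw [EuclideanSpace.norm_sq_eq, EuclideanSpace.norm_sq_eq, Fin.sum_univ_add, Fin.sum_univ_add]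
    simp only [jay, Fin.append_left, Fin.append_right, norm_neg]
    rw [add_comm]
  exact (sq_eq_sq₀ (norm_nonneg _) (norm_nonneg _)).1 h1

/-- for a symplectic linear map `L` the norm of the inverse is at most the norm of `L` -/
theorem lower {L : R (n + n) →L[ℝ] R (n + n)} (hL : ∀ v w, om (L v) (L w) = om v w)
    (v : R (n + n)) : ‖v‖ ≤ ‖L‖ * ‖L v‖ := by
  rcases eq_or_ne v 0 with rfl | hv
  · simp
  have hv0 : 0 < ‖v‖ := norm_pos_iff.2 hv
  have h1 : ‖v‖ * ‖v‖ ≤ ‖L v‖ * (‖L‖ * ‖v‖) := by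
    have h2 : om v (jay v) = ‖v‖ * ‖v‖ := by
      rw [← inner_jay, real_inner_self_eq_norm_mul_norm, norm_jay]
    have h3 := hL v (jay v)
    rw [h2, ← inner_jay] at h3
    rw [← h3]
    refine (real_inner_le_norm _ _).trans ?_
    rw [norm_jay]
    refine mul_le_mul_of_nonneg_left ?_ (norm_nonneg _)
    have h4 := L.le_opNorm (jay v)
    rwa [norm_jay] at h4
  have h5 : ‖v‖ * ‖v‖ ≤ ‖L‖ * ‖L v‖ * ‖v‖ := by
    refine h1.trans (le_of_eq ?_)
    ring
  exact le_of_mul_le_mul_right h5 hv0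

theorem IsSymp.inverseBound {φ : R (n + n) → R (n + n)} (h : IsSymp φ) {M : ℝ}
    (hM : ∀ x, ‖fderiv ℝ φ x‖ ≤ M) : InverseBound M φ := fun x v =>
  (lower (h.2 x) v).trans (mul_le_mul_of_nonneg_right (hM x) (norm_nonneg _))

theorem inverse_le {L : R (n + n) →L[ℝ] R (n + n)} (hL : ∀ v w, om (L v) (L w) = om v w) :
    ‖L.inverse‖ ≤ ‖L‖ := by
  have hinj : Injective L := by
    refine (injective_iff_map_eq_zero L).2 fun v hv => ?_
    have h1 := lower hL v
    rw [hv, norm_zero, mul_zero] at h1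
    exact norm_le_zero_iff.1 h1
  obtain ⟨e, he⟩ : ∃ e : R (n + n) ≃L[ℝ] R (n + n), (e : R (n + n) →L[ℝ] R (n + n)) = L :=
    ⟨(LinearEquiv.ofInjectiveEndo L.toLinearMap hinj).toContinuousLinearEquiv, by
      ext v
      rfl⟩
  rw [← he, ContinuousLinearMap.inverse_equiv]
  refine ContinuousLinearMap.opNorm_le_bound _ (norm_nonneg _) fun w => ?_
  have h1 := lower hL (e.symm w)
  rw [← he] at h1
  have h2 : (e : R (n + n) →L[ℝ] R (n + n)) (e.symm w) = w := e.apply_symm_apply w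
  rw [h2] at h1
  exact h1

/-- **Symplectomorphisms which are smoothly isotopic to the identity.** -/
theorem result (n : ℕ) (hn : n ≠ 0) (φ : R (n + n) → R (n + n)) (hφ : IsSymp φ)
    (h : WeightedOscillation φ ∨ NonsingularAverages φ ∨ SmallDisplacement φ ∨ SmallEnergy φ) :
    IsTrivial φ := by
  have hn2 : n + n ≠ 0 := by omega
  have hfr : Module.finrank ℝ (R (n + n)) = n + n := by simp
  refine trivial_of ?_
  rcases h with h | ⟨μ, hμ, ⟨S, hS⟩, hna, h⟩ | ⟨M, θ, r₀, η, hM, hθ, hr, hlt, h1, h2, h3⟩ |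
    ⟨M, τ, hM, hτ, hlt, h1, h2⟩
  · refine Run7.h7.Avg.weighted (vol := volume) (by rw [hfr]; exact hn2) (toC hφ.1)
      fun r hr x => lt_of_le_of_lt ?_ (h x r hr)
    have hc : Continuous (fderiv ℝ φ) := hφ.1.smooth.continuous_fderiv (by simp)
    have hci : Continuous fun y => ‖fderiv ℝ φ y - mean φ x r‖ * ‖fderiv ℝ φ y‖ :=
      ((hc.sub continuous_const).norm).mul hc.norm
    have hint : IntegrableOn (fun y => ‖fderiv ℝ φ y - mean φ x r‖ * ‖fderiv ℝ φ y‖) (ball x r) :=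
      (hci.continuousOn.integrableOn_compact (isCompact_closedBall x r)).mono_set
        ball_subset_closedBall
    show ⨍ y in ball x r, ‖fderiv ℝ φ y - mean φ x r‖ * ‖(fderiv ℝ φ y).inverse‖ ≤
      ⨍ y in ball x r, ‖fderiv ℝ φ y - mean φ x r‖ * ‖fderiv ℝ φ y‖
    rw [setAverage_eq, setAverage_eq, smul_eq_mul, smul_eq_mul]
    refine mul_le_mul_of_nonneg_left ?_ (by positivity)
    refine integral_mono_of_nonneg
      (Filter.Eventually.of_forall fun y => mul_nonneg (norm_nonneg _) (norm_nonneg _)) hint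
      (Filter.Eventually.of_forall fun y => ?_)
    exact mul_le_mul_of_nonneg_left (inverse_le (hφ.2 y)) (norm_nonneg _)
  · refine Run7.h7.Avg.null_measure (μ := μ) (S := max S 0) ⟨hμ, le_max_right _ _, ?_⟩ hna
      (toC hφ.1) fun r hr x v hv => ?_
    · filter_upwards [hS] with z hz
      exact hz.trans (le_max_left _ _)
    · exact h r hr x (hv.trans (map_zero _).symm)
  · refine Run7.h7.Avg.close_id (η := η) hM hr
      (toCls (⟨hφ.1, hφ.inverseBound h1, h2⟩ : Admissible M θ r₀ φ)) hθ h3 ?_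
    rw [hfr]
    push_cast
    linarith
  · have e2 : n + n = 2 * n := by ring
    refine energyC (n := n + n) hn2 hM hτ (by rw [e2]; exact hlt) hφ.1 (hφ.inverseBound h1) ?_
    rw [← e2] at h2
    exact h2

end Pool.Agent.Results.MP_530380_gt.SmoothlyTrivial
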